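import Pool.Agent.J4H14.SV.Stm

set_option autoImplicit false

/-! SV: P1. The two standard charts of the projective line over `ℂ`. -/

open CategoryTheory Limits AlgebraicGeometry TopologicalSpace

noncomputable section

namespace Pool.Agent.J4H98.SV

open Pool.Agent.J4H14.SV

abbrev S2 : Type := MvPolynomial (Fin 2) ℂ

theorem X_mem (i : Fin 2) : (MvPolynomial.X i : S2) ∈ HS 1 := MvPolynomial.isHomogeneous_X ℂ i

theorem aeval_homog {B : Type} [CommRing B] [Algebra ℂ B] (n : ℕ) (a : S2) (ha : a ∈ HS n) (r : B)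
    (g : Fin 2 → B) : MvPolynomial.aeval (fun i => r * g i) a = r ^ n * MvPolynomial.aeval g a := by
  rw [MvPolynomial.aeval_def, MvPolynomial.aeval_def, MvPolynomial.eval₂_eq', MvPolynomial.eval₂_eq', Finset.mul_sum]
  apply Finset.sum_congr rfl
  intro d hd
  have h1 : d.degree = n := by
    by_contra hne
    have := MvPolynomial.IsHomogeneous.coeff_eq_zero (φ := a) (n := n) ha hne
    exact (MvPolynomial.mem_support_iff.mp hd) this
  have h2 : ∏ i, (r * g i) ^ d i = r ^ n * ∏ i, g i ^ d i := by
    rw [← h1, Finsupp.degree_eq_sum, ← Finset.prod_pow_eq_pow_sum, ← Finset.prod_mul_distrib]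
    exact Finset.prod_congr rfl (fun i _ => mul_pow _ _ _)
  rw [h2]
  ring

/-- dehomogenization -/
def ev (i : Fin 2) : S2 →ₐ[ℂ] Polynomial ℂ :=
  MvPolynomial.aeval (fun k => if k = i then 1 else Polynomial.X)

theorem ev_X (i : Fin 2) : ev i (MvPolynomial.X i) = 1 := by simp [ev]

def liftL (i : Fin 2) : Localization.Away (MvPolynomial.X i : S2) →+* Polynomial ℂ :=
  IsLocalization.Away.lift (MvPolynomial.X i : S2) (g := (ev i : S2 →+* Polynomial ℂ))
    (by
      have := ev_X i
      change IsUnit (ev i (MvPolynomial.X i))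
      rw [this]; exact isUnit_one)

def phi (i : Fin 2) : HomogeneousLocalization.Away HS (MvPolynomial.X i : S2) →+* Polynomial ℂ :=
  (liftL i).comp (algebraMap _ _)

theorem val_mul_pow (i : Fin 2) (n : ℕ) (a : S2) (ha : a ∈ HS (n • 1)) :
    (HomogeneousLocalization.Away.mk HS (X_mem i) n a ha).val *
      algebraMap S2 (Localization.Away (MvPolynomial.X i : S2)) (MvPolynomial.X i ^ n) =
      algebraMap S2 (Localization.Away (MvPolynomial.X i : S2)) a := by
  rw [HomogeneousLocalization.Away.val_mk, Localization.mk_eq_mk']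
  exact IsLocalization.mk'_spec _ a (⟨MvPolynomial.X i ^ n, ⟨n, rfl⟩⟩ : Submonoid.powers (MvPolynomial.X i : S2))

theorem phi_mk (i : Fin 2) (n : ℕ) (a : S2) (ha : a ∈ HS (n • 1)) :
    phi i (HomogeneousLocalization.Away.mk HS (X_mem i) n a ha) = ev i a := by
  have h1 := congrArg (liftL i) (val_mul_pow i n a ha)
  rw [map_mul] at h1
  have h2 : ∀ b : S2, liftL i (algebraMap S2 (Localization.Away (MvPolynomial.X i : S2)) b) = ev i b := by
    intro b
    exact IsLocalization.Away.lift_eq _ _ b
  rw [h2, h2, map_pow, ev_X, one_pow, mul_one] at h1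
  exact h1

theorem phi_zero (i : Fin 2) (c : HS 0) :
    phi i (HomogeneousLocalization.fromZeroRingHom HS _ c) = ev i (c : S2) := by
  have h2 : ∀ b : S2, liftL i (algebraMap S2 (Localization.Away (MvPolynomial.X i : S2)) b) = ev i b := by
    intro b
    exact IsLocalization.Away.lift_eq _ _ b
  rw [← h2]
  change liftL i ((HomogeneousLocalization.fromZeroRingHom HS _ c).val) = _
  congr 1

theorem phi_inj (i : Fin 2) : Function.Injective (phi i) := by
  rw [injective_iff_map_eq_zero]
  intro x hx
  obtain ⟨n, a, ha, rfl⟩ := HomogeneousLocalization.Away.mk_surjective HS (X_mem i) x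
  rw [phi_mk] at hx
  obtain ⟨u, hu⟩ : ∃ u : Localization.Away (MvPolynomial.X i : S2), u * algebraMap S2 _ (MvPolynomial.X i) = 1 := by
    have : IsUnit (algebraMap S2 (Localization.Away (MvPolynomial.X i : S2)) (MvPolynomial.X i)) :=
      IsLocalization.Away.algebraMap_isUnit _
    obtain ⟨u, hu⟩ := this
    exact ⟨(u⁻¹ : _ˣ), by rw [← hu]; simp⟩
  -- the inverse
  obtain ⟨t, ht⟩ : ∃ t : Localization.Away (MvPolynomial.X i : S2), t = u * algebraMap S2 _ (MvPolynomial.X (1 - i)) :=
    ⟨_, rfl⟩
  have h1 : Polynomial.aeval t (ev i a) = MvPolynomial.aeval (fun k => if k = i then (1 : Localization.Away (MvPolynomial.X i : S2)) else t) a := by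
    have h3 : ((Polynomial.aeval t).comp (ev i) : S2 →ₐ[ℂ] _) =
        MvPolynomial.aeval (fun k => if k = i then (1 : Localization.Away (MvPolynomial.X i : S2)) else t) := by
      apply MvPolynomial.algHom_ext
      intro k
      by_cases hk : k = i
      · simp [ev, hk]
      · simp [ev, hk]
    exact congrArg (fun f => f a) h3
  rw [hx, map_zero] at h1
  have ha' : a ∈ HS n := by simpa using ha
  have h2 := aeval_homog n a ha' (algebraMap S2 (Localization.Away (MvPolynomial.X i : S2)) (MvPolynomial.X i))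
    (fun k => if k = i then (1 : Localization.Away (MvPolynomial.X i : S2)) else t)
  rw [← h1, mul_zero] at h2
  have h4 : (fun k => algebraMap S2 (Localization.Away (MvPolynomial.X i : S2)) (MvPolynomial.X i) *
      (if k = i then (1 : Localization.Away (MvPolynomial.X i : S2)) else t)) =
      fun k => algebraMap S2 _ (MvPolynomial.X k) := by
    funext k
    by_cases hk : k = i
    · simp [hk]
    · have hk' : k = 1 - i := by
        fin_cases i <;> fin_cases k <;> simp_all
      simp only [hk, if_false, ht]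
      rw [← hk', ← mul_assoc, mul_comm _ u, hu, one_mul]
  rw [h4] at h2
  have h5 : algebraMap S2 (Localization.Away (MvPolynomial.X i : S2)) a = 0 := by
    rw [← h2]
    have h6 : (IsScalarTower.toAlgHom ℂ S2 (Localization.Away (MvPolynomial.X i : S2))) =
        MvPolynomial.aeval (fun k => algebraMap S2 _ (MvPolynomial.X k)) := by
      apply MvPolynomial.algHom_ext
      intro k
      simp
    exact congrArg (fun f => f a) h6
  have hinj : Function.Injective (algebraMap S2 (Localization.Away (MvPolynomial.X i : S2))) :=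
    IsLocalization.injective _ (powers_le_nonZeroDivisors_of_noZeroDivisors (MvPolynomial.X_ne_zero i))
  have h7 : a = 0 := hinj (by rw [h5, map_zero])
  subst h7
  apply HomogeneousLocalization.val_injective
  rw [HomogeneousLocalization.Away.val_mk, HomogeneousLocalization.val_zero, Localization.mk_zero]

theorem phi_surj (i : Fin 2) : Function.Surjective (phi i) := by
  intro p
  induction p using Polynomial.induction_on' with
  | add p q hp hq =>
    obtain ⟨x, rfl⟩ := hp
    obtain ⟨y, rfl⟩ := hq
    exact ⟨x + y, map_add _ _ _⟩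
  | monomial n c =>
    refine ⟨HomogeneousLocalization.Away.mk HS (X_mem i) n (MvPolynomial.C c * MvPolynomial.X (1 - i) ^ n) ?_, ?_⟩
    · have h1 := (MvPolynomial.isHomogeneous_C (Fin 2) c).mul ((MvPolynomial.isHomogeneous_X ℂ (1 - i)).pow n)
      have h2 : n • 1 = 0 + 1 * n := by simp
      rw [h2]
      exact h1
    · rw [phi_mk]
      have hne : (1 - i) ≠ i := by fin_cases i <;> simp
      simp [ev, hne, Polynomial.C_mul_X_pow_eq_monomial]

theorem algMap_inj : Function.Bijective (algebraMap ℂ (HS 0)) := by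
  constructor
  · intro a b hab
    have h1 : (MvPolynomial.C a : S2) = MvPolynomial.C b := congrArg (fun x : HS 0 => (x : S2)) hab
    exact MvPolynomial.C_injective _ _ h1
  · intro x
    have h1 : (x : S2).totalDegree ≤ 0 := MvPolynomial.IsHomogeneous.totalDegree_le x.2
    have h2 := (MvPolynomial.totalDegree_eq_zero_iff_eq_C).mp (Nat.le_zero.mp h1)
    refine ⟨MvPolynomial.coeff 0 (x : S2), ?_⟩
    apply Subtype.ext
    exact h2.symm

theorem alg_comm (i : Fin 2) : (phi i).comp ((HomogeneousLocalization.fromZeroRingHom HS _).comp (algebraMap ℂ (HS 0))) =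
    algebraMap ℂ (Polynomial ℂ) := by
  ext c : 1
  simp only [RingHom.comp_apply]
  rw [phi_zero]
  change ev i (algebraMap ℂ S2 c) = _
  exact (ev i).commutes c

def phiE (i : Fin 2) : HomogeneousLocalization.Away HS (MvPolynomial.X i : S2) ≃+* Polynomial ℂ :=
  RingEquiv.ofBijective (phi i) ⟨phi_inj i, phi_surj i⟩

instance isoPhi (i : Fin 2) : IsIso (CommRingCat.ofHom (phi i)) :=
  (RingEquiv.toCommRingCatIso (phiE i)).isIso_hom

/-- the charts -/
def jj (i : Fin 2) : A1 ⟶ Proj HS :=
  Spec.map (CommRingCat.ofHom (phi i)) ≫ Proj.awayι HS (MvPolynomial.X i : S2) (X_mem i) one_pos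

instance jj_open (i : Fin 2) : IsOpenImmersion (jj i) := by
  unfold jj
  exact IsOpenImmersion.comp _ _

def str : Proj HS ⟶ SC :=
  Proj.toSpecZero HS ≫ Spec.map (CommRingCat.ofHom (algebraMap ℂ (HS 0)))

theorem jj_str (i : Fin 2) : jj i ≫ str = A1str := by
  unfold jj str
  rw [Category.assoc, Proj.awayι_toSpecZero_assoc, ← Spec.map_comp, ← Spec.map_comp]
  congr 1
  rw [← alg_comm i]
  rfl

theorem jj_range (i : Fin 2) : Set.range (jj i) = (Proj.basicOpen HS (MvPolynomial.X i : S2) : Set (Proj HS)) := by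
  have h1 : (jj i).opensRange = Proj.basicOpen HS (MvPolynomial.X i : S2) := by
    unfold jj
    rw [Scheme.Hom.opensRange_comp_of_isIso]
    exact Proj.opensRange_awayι HS (MvPolynomial.X i : S2) (X_mem i) one_pos
  exact congrArg (fun U : (Proj HS).Opens => (U : Set (Proj HS))) h1

theorem adj_top : Algebra.adjoin (HS 0) (Set.range (fun i : Fin 2 => (MvPolynomial.X i : S2))) = ⊤ := by
  rw [eq_top_iff]
  intro p _
  induction p using MvPolynomial.induction_on with
  | C c =>
    have h1 : (MvPolynomial.C c : S2) = algebraMap (HS 0) S2 (algebraMap ℂ (HS 0) c) := rfl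
    rw [h1]
    exact Subalgebra.algebraMap_mem _ _
  | add p q hp hq => exact add_mem (hp trivial) (hq trivial)
  | mul_X p i hp => exact mul_mem (hp trivial) (Algebra.subset_adjoin ⟨i, rfl⟩)

theorem str_proper : IsProper str := by
  have h0 : Algebra.FiniteType (HS 0) S2 := by
    refine ⟨⟨Finset.univ.image (fun i : Fin 2 => (MvPolynomial.X i : S2)), ?_⟩⟩
    rw [Finset.coe_image, Finset.coe_univ, Set.image_univ]
    exact adj_top
  have h1 : IsIso (CommRingCat.ofHom (algebraMap ℂ (HS 0))) :=
    (RingEquiv.toCommRingCatIso (RingEquiv.ofBijective (algebraMap ℂ (HS 0)) algMap_inj)).isIso_hom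
  have h2 : IsProper (Proj.toSpecZero HS) := inferInstance
  have h3 : IsProper (Spec.map (CommRingCat.ofHom (algebraMap ℂ (HS 0)))) := inferInstance
  exact MorphismProperty.comp_mem _ _ _ h2 h3

theorem cover : Set.range (jj 1) ∪ Set.range (jj 0) = Set.univ := by
  rw [jj_range, jj_range]
  have h1 := Proj.iSup_basicOpen_eq_top' HS (fun i : Fin 2 => (MvPolynomial.X i : S2)) (fun i => ⟨1, X_mem i⟩) adj_top
  rw [Set.eq_univ_iff_forall]
  intro x
  have h2 : x ∈ (⨆ i, Proj.basicOpen HS (MvPolynomial.X i : S2)) := by rw [h1]; trivial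
  rw [TopologicalSpace.Opens.mem_iSup] at h2
  obtain ⟨i, hi⟩ := h2
  fin_cases i
  · right; exact hi
  · left; exact hi

theorem key1 (q : A1) : (jj 1 q ∈ Proj.basicOpen HS (MvPolynomial.X 0 : S2)) ↔
    Polynomial.X ∉ (show PrimeSpectrum (Polynomial ℂ) from q).asIdeal := by
  have h1 := Proj.awayι_preimage_basicOpen HS (X_mem 1) one_pos (X_mem 0) one_pos
  have h3 : (jj 1 q ∈ Proj.basicOpen HS (MvPolynomial.X 0 : S2)) ↔
      (Spec.map (CommRingCat.ofHom (phi 1)) q) ∈
        (Proj.awayι HS (MvPolynomial.X 1 : S2) (X_mem 1) one_pos) ⁻¹ᵁ Proj.basicOpen HS (MvPolynomial.X 0 : S2) := by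
    unfold jj
    rfl
  rw [h3, h1]
  have h4 : phi 1 (HomogeneousLocalization.Away.isLocalizationElem (X_mem 1) (X_mem 0)) = Polynomial.X := by
    rw [HomogeneousLocalization.Away.isLocalizationElem, phi_mk]
    simp [ev]
  rw [← h4]
  rfl

theorem t_P1 : S_P1 := by
  refine ⟨str_proper, jj 1, jj 0, jj_open 1, jj_open 0, jj_str 1, jj_str 0, cover, ?_, ?_⟩
  · intro q
    have h5 := mem_baseCompl (jj 1 q)
    constructor
    · intro h
      by_contra h6
      exact (h5.mp ((key1 q).mpr h6)) h
    · intro h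
      by_contra h6
      exact ((key1 q).mp (h5.mpr h6)) h
  · intro q h
    have h1 : jj 0 q ∈ Set.range (jj 0) := ⟨q, rfl⟩
    rw [jj_range] at h1
    exact (mem_baseCompl (jj 0 q)).mp h1 h

end Pool.Agent.J4H98.SV
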