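import Pool.Agent.J4H14.SV.Nd5
import Pool.Agent.J4H98.SV.P1
import Pool.Agent.J4H41.SV.Alg

/-! SV: XCM. `X_S` is Cohen-Macaulay. -/

open CategoryTheory Limits AlgebraicGeometry TopologicalSpace TensorProduct

noncomputable section

namespace Pool.Agent.J4H98.SV

open Pool.Agent.J4H14.SV

abbrev A4 : Scheme.{0} := Spec (CommRingCat.of D4)
abbrev A4str : A4 ⟶ SC := Spec.map (CommRingCat.ofHom (algebraMap ℂ D4))

def c4 (i : Fin 4) : A4 ⟶ A1 :=
  Spec.map (CommRingCat.ofHom (Polynomial.aeval (R := ℂ) (MvPolynomial.X i : D4)).toRingHom)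

/-- the maps to the two planes -/
def w0 : A4 ⟶ A2 := Spec.map (CommRingCat.ofHom
  (MvPolynomial.aeval (R := ℂ) (![MvPolynomial.X 0, MvPolynomial.X 1] : Fin 2 → D4)).toRingHom)
def w2 : A4 ⟶ A2 := Spec.map (CommRingCat.ofHom
  (MvPolynomial.aeval (R := ℂ) (![MvPolynomial.X 2, MvPolynomial.X 3] : Fin 2 → D4)).toRingHom)

lemma w0_str : w0 ≫ A2str = A4str := by
  rw [w0, A2str, ← Spec.map_comp]
  congr 1
  ext x
  simp

lemma w2_str : w2 ≫ A2str = A4str := by
  rw [w2, A2str, ← Spec.map_comp]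
  congr 1
  ext x
  simp

lemma w0_co0 : w0 ≫ co 0 = c4 0 := by
  rw [w0, co, c4, ← Spec.map_comp]
  congr 1
  apply CommRingCat.hom_ext
  apply Polynomial.ringHom_ext
  · intro r
    simp
  · simp

lemma w0_co1 : w0 ≫ co 1 = c4 1 := by
  rw [w0, co, c4, ← Spec.map_comp]
  congr 1
  apply CommRingCat.hom_ext
  apply Polynomial.ringHom_ext
  · intro r
    simp
  · simp

lemma w2_co0 : w2 ≫ co 0 = c4 2 := by
  rw [w2, co, c4, ← Spec.map_comp]
  congr 1
  apply CommRingCat.hom_ext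
  apply Polynomial.ringHom_ext
  · intro r
    simp
  · simp

lemma w2_co1 : w2 ≫ co 1 = c4 3 := by
  rw [w2, co, c4, ← Spec.map_comp]
  congr 1
  apply CommRingCat.hom_ext
  apply Polynomial.ringHom_ext
  · intro r
    simp
  · simp

def tensor4 : R2 ⊗[ℂ] R2 ≃ₐ[ℂ] D4 :=
  AlgEquiv.ofAlgHom
    (Algebra.TensorProduct.productMap
      (MvPolynomial.aeval (R := ℂ) (![MvPolynomial.X 0, MvPolynomial.X 1] : Fin 2 → D4))
      (MvPolynomial.aeval (R := ℂ) (![MvPolynomial.X 2, MvPolynomial.X 3] : Fin 2 → D4)))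
    (MvPolynomial.aeval ![MvPolynomial.X 0 ⊗ₜ 1, MvPolynomial.X 1 ⊗ₜ 1, 1 ⊗ₜ MvPolynomial.X 0,
      1 ⊗ₜ MvPolynomial.X 1])
    (by
      apply MvPolynomial.algHom_ext
      intro i
      fin_cases i <;> simp)
    (by
      apply Algebra.TensorProduct.ext
      · apply MvPolynomial.algHom_ext
        intro i
        fin_cases i <;> simp
      · apply MvPolynomial.algHom_ext
        intro i
        fin_cases i <;> simp)

lemma w_lift : (pullback.lift w0 w2 (by rw [w0_str, w2_str]) : A4 ⟶ pullback A2str A2str)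
    = Spec.map (CommRingCat.ofHom tensor4.toAlgHom.toRingHom) ≫
      (pullbackSpecIso ℂ R2 R2).inv := by
  apply pullback.hom_ext
  · rw [pullback.lift_fst, Category.assoc]
    rw [pullbackSpecIso_inv_fst, ← Spec.map_comp, w0]
    congr 1
    apply CommRingCat.hom_ext
    apply MvPolynomial.ringHom_ext
    · intro r
      simp [tensor4]
    · intro i
      simp [tensor4]
  · rw [pullback.lift_snd, Category.assoc]
    rw [pullbackSpecIso_inv_snd, ← Spec.map_comp, w2]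
    congr 1
    apply CommRingCat.hom_ext
    apply MvPolynomial.ringHom_ext
    · intro r
      simp [tensor4]
    · intro i
      simp [tensor4]

instance w_iso : IsIso (pullback.lift w0 w2 (by rw [w0_str, w2_str]) :
    A4 ⟶ pullback A2str A2str) := by
  rw [w_lift]
  have : IsIso (Spec.map (CommRingCat.ofHom tensor4.toAlgHom.toRingHom)) := by
    have : IsIso (CommRingCat.ofHom tensor4.toAlgHom.toRingHom) :=
      (tensor4.toRingEquiv.toCommRingCatIso).isIso_hom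
    infer_instance
  infer_instance

variable (a b : A1 ⟶ P1) (ha : a ≫ P1str = A1str) (hb : b ≫ P1str = A1str)

/-- a plane in `P1 x P1` -/
def L2 : A2 ⟶ PP := pullback.lift (co 0 ≫ a) (co 1 ≫ b)
  (by simp only [Category.assoc, ha, hb, co_str])

lemma L2_eq : L2 a b ha hb = pullback.lift (co 0) (co 1) (by rw [co_str, co_str]) ≫
    pullback.map A1str A1str P1str P1str a b (𝟙 _) (by rw [ha, Category.comp_id])
      (by rw [hb, Category.comp_id]) := by
  apply pullback.hom_ext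
  · rw [L2, pullback.lift_fst, Category.assoc, pullback.map, pullback.lift_fst,
      pullback.lift_fst_assoc]
  · rw [L2, pullback.lift_snd, Category.assoc, pullback.map, pullback.lift_snd,
      pullback.lift_snd_assoc]

instance L2_open [IsOpenImmersion a] [IsOpenImmersion b] : IsOpenImmersion (L2 a b ha hb) := by
  rw [L2_eq]
  infer_instance

lemma range_iso_comp {X Y Z : Scheme.{0}} (f : X ⟶ Y) (g : Y ⟶ Z) [IsIso f] :
    Set.range (f ≫ g) = Set.range g := by
  rw [Scheme.Hom.comp_base, TopCat.coe_comp, Set.range_comp]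
  have h1 : Set.range f = Set.univ := by
    have : Surjective f := inferInstance
    exact Set.range_eq_univ.mpr this.surj
  rw [h1, Set.image_univ]

lemma L2_range : Set.range (L2 a b ha hb) =
    pullback.fst P1str P1str ⁻¹' Set.range a ∩ pullback.snd P1str P1str ⁻¹' Set.range b := by
  rw [L2_eq, range_iso_comp, Scheme.Pullback.range_map]

lemma L2_str : L2 a b ha hb ≫ PPstr = A2str := by
  rw [L2, PPstr, pullback.lift_fst_assoc, Category.assoc, ha, co_str]

variable (x : Fin 4 → (A1 ⟶ P1)) (hx : ∀ k, x k ≫ P1str = A1str)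

def L4 : A4 ⟶ Y := pullback.lift (w0 ≫ L2 (x 0) (x 1) (hx 0) (hx 1)) (w2 ≫ L2 (x 2) (x 3) (hx 2) (hx 3))
  (by simp only [Category.assoc, L2_str, w0_str, w2_str])

lemma L4_eq : L4 x hx = pullback.lift w0 w2 (by rw [w0_str, w2_str]) ≫
    pullback.map A2str A2str PPstr PPstr (L2 (x 0) (x 1) (hx 0) (hx 1)) (L2 (x 2) (x 3) (hx 2) (hx 3)) (𝟙 _)
      (by rw [L2_str, Category.comp_id]) (by rw [L2_str, Category.comp_id]) := by
  apply pullback.hom_ext
  · rw [L4, pullback.lift_fst, Category.assoc, pullback.map, pullback.lift_fst,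
      pullback.lift_fst_assoc]
  · rw [L4, pullback.lift_snd, Category.assoc, pullback.map, pullback.lift_snd,
      pullback.lift_snd_assoc]

instance L4_open [∀ k, IsOpenImmersion (x k)] : IsOpenImmersion (L4 x hx) := by
  rw [L4_eq]
  infer_instance

lemma L4_range : Set.range (L4 x hx) = {y | ∀ k, pr k y ∈ Set.range (x k)} := by
  rw [L4_eq, range_iso_comp, Scheme.Pullback.range_map, L2_range, L2_range]
  ext y
  constructor
  · rintro ⟨⟨h0, h1⟩, h2, h3⟩ k
    fin_cases k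
    · exact h0
    · exact h1
    · exact h2
    · exact h3
  · intro h
    exact ⟨⟨h 0, h 1⟩, h 2, h 3⟩

lemma L4_pr (k : Fin 4) : L4 x hx ≫ pr k = c4 k ≫ x k := by
  fin_cases k
  · change L4 x hx ≫ pullback.fst PPstr PPstr ≫ pullback.fst P1str P1str = _
    rw [L4, pullback.lift_fst_assoc, L2, Category.assoc, pullback.lift_fst, ← Category.assoc, w0_co0]
    rfl
  · change L4 x hx ≫ pullback.fst PPstr PPstr ≫ pullback.snd P1str P1str = _
    rw [L4, pullback.lift_fst_assoc, L2, Category.assoc, pullback.lift_snd, ← Category.assoc, w0_co1]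
    rfl
  · change L4 x hx ≫ pullback.snd PPstr PPstr ≫ pullback.fst P1str P1str = _
    rw [L4, pullback.lift_snd_assoc, L2, Category.assoc, pullback.lift_fst, ← Category.assoc, w2_co0]
    rfl
  · change L4 x hx ≫ pullback.snd PPstr PPstr ≫ pullback.snd P1str P1str = _
    rw [L4, pullback.lift_snd_assoc, L2, Category.assoc, pullback.lift_snd, ← Category.assoc, w2_co1]
    rfl

instance XS_reduced (S : Finset (Finset (Fin 4))) : IsReduced (XS S) := by
  let I := Scheme.IdealSheafData.vanishingIdeal (X := Y) ⟨unionSet S, isClosed_unionSet S⟩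
  have h : ∀ i, IsReduced (I.subschemeCover.openCover.X i) := by
    intro U'
    let U : Y.affineOpens := U'
    have h1 : (I.ideal U).IsRadical := by
      change (PrimeSpectrum.vanishingIdeal _).IsRadical
      exact PrimeSpectrum.isRadical_vanishingIdeal _
    have h2 : _root_.IsReduced (_ ⧸ I.ideal U) :=
      (Ideal.isRadical_iff_quotient_reduced _).mp h1
    have h3 : _root_.IsReduced (CommRingCat.of (_ ⧸ I.ideal U)) := h2
    change IsReduced (Spec (CommRingCat.of (_ ⧸ I.ideal U)))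
    infer_instance
  exact IsReduced.of_openCover I.subscheme I.subschemeCover.openCover

lemma c4_X (k : Fin 4) (q : A4) : (Polynomial.X : Polynomial ℂ) ∈
    (show PrimeSpectrum (Polynomial ℂ) from c4 k q).asIdeal ↔
    (MvPolynomial.X k : D4) ∈ (show PrimeSpectrum D4 from q).asIdeal := by
  change (Polynomial.aeval (R := ℂ) (MvPolynomial.X k : D4)) Polynomial.X ∈
    (show PrimeSpectrum D4 from q).asIdeal ↔ _
  rw [Polynomial.aeval_X]

section main

variable (j₀ j₁ : A1 ⟶ P1) (hj₀ : j₀ ≫ P1str = A1str) (hj₁ : j₁ ≫ P1str = A1str)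
  (T : Finset (Fin 4))

def ch (k : Fin 4) : A1 ⟶ P1 := if k ∈ T then j₁ else j₀

include hj₀ hj₁ in
lemma ch_str (k : Fin 4) : ch j₀ j₁ T k ≫ P1str = A1str := by
  unfold ch
  split_ifs
  · exact hj₁
  · exact hj₀

instance ch_open [IsOpenImmersion j₀] [IsOpenImmersion j₁] (k : Fin 4) : IsOpenImmersion (ch j₀ j₁ T k) := by
  unfold ch
  split_ifs <;> infer_instance

/-- the chart of `Y` -/
abbrev JJ : A4 ⟶ Y := L4 (ch j₀ j₁ T) (ch_str j₀ j₁ hj₀ hj₁ T)

lemma JJ_mem (h₀ : ∀ q : A1, j₀ q ∈ baseLocus ↔ Polynomial.X ∈ (show PrimeSpectrum (Polynomial ℂ) from q).asIdeal)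
    (h₁ : ∀ q : A1, j₁ q ∉ baseLocus) (q : A4) :
    JJ j₀ j₁ hj₀ hj₁ T q ∈ unionSet S3 ↔
      (show PrimeSpectrum D4 from q) ∈ PrimeSpectrum.zeroLocus (JT T : Set D4) := by
  rw [Pool.Agent.J4H41.SV.zeroLocus_JT]
  have hpr : ∀ k, pr k (JJ j₀ j₁ hj₀ hj₁ T q) = ch j₀ j₁ T k (c4 k q) := by
    intro k
    exact congrArg (fun g : A4 ⟶ P1 => g q) (L4_pr (ch j₀ j₁ T) (ch_str j₀ j₁ hj₀ hj₁ T) k)
  have hk : ∀ k, pr k (JJ j₀ j₁ hj₀ hj₁ T q) ∈ baseLocus ↔
      (k ∉ T ∧ (MvPolynomial.X k : D4) ∈ (show PrimeSpectrum D4 from q).asIdeal) := by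
    intro k
    rw [hpr, ← c4_X]
    unfold ch
    by_cases hkT : k ∈ T
    · rw [if_pos hkT]
      exact ⟨fun h => absurd h (h₁ _), fun h => absurd hkT h.1⟩
    · rw [if_neg hkT, h₀]
      exact ⟨fun h => ⟨hkT, h⟩, fun h => h.2⟩
  constructor
  · rintro ⟨F, hF, h⟩
    refine ⟨F, hF, ?_, ?_⟩
    · intro k hkT
      by_contra hkF
      exact ((hk k).mp (h k hkF)).1 hkT
    · intro k hkF
      exact ((hk k).mp (h k hkF)).2
  · rintro ⟨F, hF, hTF, h⟩
    refine ⟨F, hF, ?_⟩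
    intro k hkF
    exact (hk k).mpr ⟨fun hkT => hkF (hTF hkT), h k hkF⟩

abbrev QT : Scheme.{0} := Spec (CommRingCat.of (D4 ⧸ JT T))

abbrev qm : QT T ⟶ A4 := Spec.map (CommRingCat.ofHom (Ideal.Quotient.mk (JT T)))

lemma qm_range : Set.range (qm T) = (PrimeSpectrum.zeroLocus (JT T : Set D4) : Set (PrimeSpectrum D4)) := by
  have h1 := range_comap_of_surjective _ (Ideal.Quotient.mk (JT T)) Ideal.Quotient.mk_surjective
  rw [Ideal.mk_ker] at h1
  exact h1

theorem main_chart [IsOpenImmersion j₀] [IsOpenImmersion j₁]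
    (h₀ : ∀ q : A1, j₀ q ∈ baseLocus ↔ Polynomial.X ∈ (show PrimeSpectrum (Polynomial ℂ) from q).asIdeal)
    (h₁ : ∀ q : A1, j₁ q ∉ baseLocus) :
    ∃ g : QT T ⟶ XS S3, IsOpenImmersion g ∧ ∀ x : XS S3, XSι S3 x ∈ Set.range (JJ j₀ j₁ hj₀ hj₁ T) → x ∈ Set.range g := by
  have hred : _root_.IsReduced (D4 ⧸ JT T) :=
    (Ideal.isRadical_iff_quotient_reduced _).mp (Pool.Agent.J4H41.SV.isRadical_JT T)
  have hred' : IsReduced (QT T) := by
    have : _root_.IsReduced (CommRingCat.of (D4 ⧸ JT T)) := hred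
    infer_instance
  obtain ⟨g, hg⟩ := factor_XS S3 (qm T ≫ JJ j₀ j₁ hj₀ hj₁ T) (by
    rintro _ ⟨q, rfl⟩
    have h2 : (show PrimeSpectrum D4 from qm T q) ∈ PrimeSpectrum.zeroLocus (JT T : Set D4) := by
      rw [← qm_range]
      exact ⟨q, rfl⟩
    exact (JJ_mem j₀ j₁ hj₀ hj₁ T h₀ h₁ (qm T q)).mpr h2)
  -- the pullback
  have hci : IsClosedImmersion (qm T) := IsClosedImmersion.spec_of_surjective _ Ideal.Quotient.mk_surjective
  let W := pullback (XSι S3) (JJ j₀ j₁ hj₀ hj₁ T)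
  let l : QT T ⟶ W := pullback.lift g (qm T) hg
  have hWred : IsReduced W := isReduced_of_isOpenImmersion (pullback.fst (XSι S3) (JJ j₀ j₁ hj₀ hj₁ T))
  have hl1 : l ≫ pullback.snd (XSι S3) (JJ j₀ j₁ hj₀ hj₁ T) = qm T := pullback.lift_snd _ _ _
  have hl0 : l ≫ pullback.fst (XSι S3) (JJ j₀ j₁ hj₀ hj₁ T) = g := pullback.lift_fst _ _ _
  have hlc : IsClosedImmersion l := by
    have : IsClosedImmersion (l ≫ pullback.snd (XSι S3) (JJ j₀ j₁ hj₀ hj₁ T)) := by rw [hl1]; exact hci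
    exact IsClosedImmersion.of_comp_isClosedImmersion l (pullback.snd (XSι S3) (JJ j₀ j₁ hj₀ hj₁ T))
  have hls : Surjective l := by
    constructor
    intro w
    have h2 : JJ j₀ j₁ hj₀ hj₁ T (pullback.snd (XSι S3) (JJ j₀ j₁ hj₀ hj₁ T) w) ∈ unionSet S3 := by
      have h3 : JJ j₀ j₁ hj₀ hj₁ T (pullback.snd (XSι S3) (JJ j₀ j₁ hj₀ hj₁ T) w) =
          XSι S3 (pullback.fst (XSι S3) (JJ j₀ j₁ hj₀ hj₁ T) w) :=
        (congrArg (fun f : W ⟶ Y => f w) (pullback.condition (f := XSι S3) (g := JJ j₀ j₁ hj₀ hj₁ T))).symm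
      rw [h3, ← range_XSι]
      exact ⟨_, rfl⟩
    have h4 := (JJ_mem j₀ j₁ hj₀ hj₁ T h₀ h₁ _).mp h2
    rw [← qm_range] at h4
    obtain ⟨q, hq⟩ := h4
    refine ⟨q, ?_⟩
    have hinj : Function.Injective (pullback.snd (XSι S3) (JJ j₀ j₁ hj₀ hj₁ T)) :=
      (pullback.snd (XSι S3) (JJ j₀ j₁ hj₀ hj₁ T)).isClosedEmbedding.injective
    apply hinj
    have h5 : pullback.snd (XSι S3) (JJ j₀ j₁ hj₀ hj₁ T) (l q) = qm T q :=
      congrArg (fun f : QT T ⟶ A4 => f q) hl1
    rw [h5]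
    exact hq
  have hiso : IsIso l := isIso_of_isClosedImmersion_of_surjective l
  refine ⟨g, ?_, ?_⟩
  · rw [← hl0]
    infer_instance
  · intro x hx
    obtain ⟨d, hd⟩ := hx
    obtain ⟨w, hw, -⟩ := Scheme.Pullback.exists_preimage_pullback x d hd.symm
    obtain ⟨q, hq⟩ := hls.surj w
    refine ⟨q, ?_⟩
    have h5 : pullback.fst (XSι S3) (JJ j₀ j₁ hj₀ hj₁ T) (l q) = g q :=
      congrArg (fun f : QT T ⟶ XS S3 => f q) hl0
    rw [← h5, hq]
    exact hw

end main

theorem t_XCM : IsCohenMacaulay (XS S3) := by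
  obtain ⟨-, j₀, j₁, ho₀, ho₁, hj₀, hj₁, hcov, h₀, h₁⟩ := t_P1
  intro x
  classical
  obtain ⟨T, hT⟩ : ∃ T : Finset (Fin 4), ∀ k, k ∈ T ↔ pr k (XSι S3 x) ∉ Set.range j₀ :=
    ⟨Finset.univ.filter (fun k => pr k (XSι S3 x) ∉ Set.range j₀), fun k => by simp⟩
  obtain ⟨g, hg, hr⟩ := main_chart j₀ j₁ hj₀ hj₁ T h₀ h₁
  obtain ⟨q, rfl⟩ := hr x (by
    rw [L4_range]
    intro k
    unfold ch
    by_cases hk : k ∈ T
    · rw [if_pos hk]
      have h2 : pr k (XSι S3 x) ∈ Set.range j₀ ∪ Set.range j₁ := by rw [hcov]; trivial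
      exact h2.resolve_left ((hT k).mp hk)
    · rw [if_neg hk]
      by_contra h2
      exact hk ((hT k).mpr h2))
  have e1 : (XS S3).presheaf.stalk (g q) ≅ (QT T).presheaf.stalk q := asIso (g.stalkMap q)
  have e2 := Spec.stalkIso (CommRingCat.of (D4 ⧸ JT T)) q
  have h3 := Pool.Agent.J4H41.SV.t_CMALG T (show PrimeSpectrum (D4 ⧸ JT T) from q).asIdeal
  exact Pool.Agent.J4H41.SV.isCM_of_ringEquiv (e1 ≪≫ e2).commRingCatIsoToRingEquiv.symm h3

end Pool.Agent.J4H98.SV
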